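import Pool.Agent.HIK.Stmts
import Pool.Agent.Helper55_HIK.AVW

/-!
# Squad HIK, row SML: a conjugate is almost as large as the house
-/

set_option autoImplicit false

namespace Pool.Agent.HIK.H21

open Pool.Agent.HIK NumberField

/-- integers in an interval -/
theorem card_near (c r : ℝ) (hr : 0 ≤ r) (X : ℕ) (P : ℕ → Prop)
    (hP : ∀ j, j < X → P j → |c + j| ≤ r) : (Nat.card {j : ℕ // j < X ∧ P j} : ℝ) ≤ 2 * r + 1 := by
  have h1 : Nat.card {j : ℕ // j < X ∧ P j} ≤ (Finset.Icc ⌈-c - r⌉ ⌊-c + r⌋).card := by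
    rw [← Fintype.card_coe, ← Nat.card_eq_fintype_card]
    refine Nat.card_le_card_of_injective (fun j : {j : ℕ // j < X ∧ P j} =>
      (⟨(j.1 : ℤ), ?_⟩ : Finset.Icc ⌈-c - r⌉ ⌊-c + r⌋)) ?_
    · have h2 := abs_le.1 (hP j.1 j.2.1 j.2.2)
      rw [Finset.mem_Icc, Int.ceil_le, Int.le_floor]
      push_cast
      constructor <;> linarith [h2.1, h2.2]
    · intro a b hab
      have h2 := congrArg Subtype.val hab
      simp only at h2
      exact Subtype.ext (by exact_mod_cast h2)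
  have h2 : ((Finset.Icc ⌈-c - r⌉ ⌊-c + r⌋).card : ℝ) ≤ 2 * r + 1 := by
    rw [Int.card_Icc]
    by_cases h3 : 0 ≤ ⌊-c + r⌋ + 1 - ⌈-c - r⌉
    · have h4 : (((⌊-c + r⌋ + 1 - ⌈-c - r⌉).toNat : ℕ) : ℝ) =
          (((⌊-c + r⌋ + 1 - ⌈-c - r⌉ : ℤ)) : ℝ) := by
        have := Int.toNat_of_nonneg h3
        exact_mod_cast this
      rw [h4]
      push_cast
      have h5 := Int.floor_le (-c + r)
      have h6 := Int.le_ceil (-c - r)
      linarith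
    · have h4 : (⌊-c + r⌋ + 1 - ⌈-c - r⌉).toNat = 0 := Int.toNat_of_nonpos (by omega)
      rw [h4]
      push_cast
      linarith
  exact (by exact_mod_cast h1 : (Nat.card {j : ℕ // j < X ∧ P j} : ℝ) ≤
    ((Finset.Icc ⌈-c - r⌉ ⌊-c + r⌋).card : ℝ)).trans h2

theorem eventually_small (ε δ : ℝ) (hε1 : ε < 1) (hδ : 0 < δ) : ∃ X0 : ℕ, ∀ X : ℕ, X0 ≤ X →
    2 * (3 * (X : ℝ)) ^ ε + 1 ≤ δ * X := by
  have h1 : Filter.Tendsto (fun x : ℝ => 2 * (3 : ℝ) ^ ε * x ^ (-(1 - ε)) + x⁻¹) Filter.atTop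
      (nhds 0) := by
    have h2 := (tendsto_rpow_neg_atTop (show 0 < 1 - ε by linarith)).const_mul (2 * (3 : ℝ) ^ ε)
    have h3 := h2.add tendsto_inv_atTop_zero
    rwa [mul_zero, add_zero] at h3
  have h4 := (h1.comp tendsto_natCast_atTop_atTop).eventually (gt_mem_nhds hδ)
  obtain ⟨X0, hX0⟩ := Filter.eventually_atTop.1 h4
  refine ⟨max X0 1, fun X hX => ?_⟩
  have h5 := hX0 X ((le_max_left _ _).trans hX)
  have hX1 : (1 : ℝ) ≤ X := by exact_mod_cast (le_max_right _ _).trans hX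
  simp only [Function.comp_apply] at h5
  have h6 := mul_le_mul_of_nonneg_right h5.le (show (0 : ℝ) ≤ X by linarith)
  have h7 : (X : ℝ) ^ (-(1 - ε)) * X = (X : ℝ) ^ ε := by
    have h8 : (X : ℝ) ^ (-(1 - ε)) * (X : ℝ) ^ (1 : ℝ) = (X : ℝ) ^ ε := by
      rw [← Real.rpow_add (by linarith)]
      congr 1
      ring
    rwa [Real.rpow_one] at h8
  have h9 : (3 * (X : ℝ)) ^ ε = (3 : ℝ) ^ ε * (X : ℝ) ^ ε :=
    Real.mul_rpow (by norm_num) (by linarith)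
  rw [h9]
  have h10 : (2 * (3 : ℝ) ^ ε * (X : ℝ) ^ (-(1 - ε)) + (X : ℝ)⁻¹) * X =
      2 * ((3 : ℝ) ^ ε * (X : ℝ) ^ ε) + 1 := by
    rw [add_mul, inv_mul_cancel₀ (by linarith), mul_assoc (2 * (3 : ℝ) ^ ε), h7]
    ring
  rwa [h10] at h6

theorem sml (hA : AvgStmt) : SmlStmt := by
  intro K _ _ σ ε hε0 hε1
  apply hA
  intro δ hδ
  obtain ⟨X0, hX0⟩ := eventually_small ε δ hε1 hδ
  refine ⟨X0, fun X hX a0 ha0 => le_trans ?_ (hX0 X hX)⟩
  refine card_near (σ (a0 : K)).re ((3 * (X : ℝ)) ^ ε) (by positivity) X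
    (fun j => a0 + j ∈ {w : 𝓞 K | ‖σ (w : K)‖ < house (w : K) ^ ε}) ?_
  intro j hjX hj
  have h1 : ‖σ ((a0 + j : 𝓞 K) : K)‖ < house ((a0 + j : 𝓞 K) : K) ^ ε := hj
  have h2 : house ((a0 + j : 𝓞 K) : K) ≤ 3 * X := by
    refine (H55.house_add_nat a0 j).trans ?_
    have : (j : ℝ) ≤ X := by exact_mod_cast hjX.le
    linarith
  have h3 : house ((a0 + j : 𝓞 K) : K) ^ ε ≤ (3 * (X : ℝ)) ^ ε :=
    Real.rpow_le_rpow (house_nonneg _) h2 hε0.le
  have h4 : ((a0 + j : 𝓞 K) : K) = (a0 : K) + (j : K) := by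
    push_cast
    rfl
  have h5 : (σ ((a0 + j : 𝓞 K) : K)).re = (σ (a0 : K)).re + j := by
    rw [h4, map_add, map_natCast, Complex.add_re, Complex.natCast_re]
  rw [← h5]
  exact (Complex.abs_re_le_norm _).trans (h1.le.trans h3)

end Pool.Agent.HIK.H21
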